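import Mathlib
import Pool.Agent.Helper617.RM.Defs
import Pool.Agent.H60Z.HTn.G

/-!
An `ω`-model of `RCA₀` in which Hindman's theorem for sums of exactly three elements holds for
every number of colours, and Ramsey's theorem fails for all `n, k ≥ 2`.
-/

set_option autoImplicit false

namespace Pool.Agent.Results.MP_6f9266_lc.AThree

open Pool.Agent.Helper617.RM

/-- The `ω`-structure with the standard natural numbers whose set variables range over `I`. -/
def omegaModel (I : Set (Set ℕ)) : L2Structure.{0} :=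
  ⟨ℕ, 0, 1, fun a b => a + b, fun a b => a * b, fun a b => a < b, I⟩

/-- `HT^{=n}_k` holds in `I`: every colouring `c : ℕ → k` whose graph is in `I` has an infinite
set `X` in `I` such that `c` is constant on the sums of the `n`-element subsets of `X`. -/
def HT (n k : ℕ) (I : Set (Set ℕ)) : Prop :=
  ∀ c : ℕ → Fin k, {p | ∃ x, p = Nat.pair x (c x)} ∈ I →
    ∃ X ∈ I, X.Infinite ∧ ∃ i, ∀ F : Finset ℕ, (F : Set ℕ) ⊆ X → F.card = n → c (∑ x ∈ F, x) = i

/-- `RT^n_k` holds in `I`. An `n`-element set is given by its increasing enumeration `l`; the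
graph of the colouring is the set of the codes of the pairs `(l, c l)`. -/
def RT (n k : ℕ) (I : Set (Set ℕ)) : Prop :=
  ∀ c : List ℕ → Fin k,
    Encodable.encode '' {x : List ℕ × ℕ | x.1.length = n ∧ x.1.Pairwise (· < ·) ∧ x.2 = c x.1} ∈ I →
    ∃ X ∈ I, X.Infinite ∧ ∃ i, ∀ l : List ℕ, l.length = n → l.Pairwise (· < ·) →
      (∀ x ∈ l, x ∈ X) → c l = i

open Pool.Agent.H362Z.PRT Pool.Agent.H362Z.EM Pool.Agent.H60Z.HTn in
/-- There is an `ω`-model of `RCA₀` that satisfies `HT^{=3}_k` for all `k`, and in which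
`RT^n_k` fails for all `n, k ≥ 2`. -/
theorem result : ∃ I : Set (Set ℕ), IsModelRCA0 (omegaModel I) ∧
    (∀ k, HT 3 k I) ∧ ∀ n k, 2 ≤ n → 2 ≤ k → ¬ RT n k I := by
  classical
  obtain ⟨N, f, hf, h1, h2⟩ := exists_model
  refine ⟨sets N, isModel N, fun k => ?_, fun n k hn hk h => ?_⟩
  · have key : ∀ c : ℕ → Fin k, {p | ∃ x, p = Nat.pair x (c x)} ∈ sets N → ∃ X ∈ sets N,
        X.Infinite ∧ (∃ i : ℕ, ∀ x ∈ X, ∀ y ∈ X, x < y → (c (x + y) : ℕ) = i) ∧
        ∃ i : ℕ, ∀ x ∈ X, ∀ y ∈ X, ∀ z ∈ X, x < y → y < z → (c (x + y + z) : ℕ) = i := by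
      intro c hc
      let T : ℕ × ℕ → Bool := fun x => decide (Nat.pair x.1 x.2 ∈ {p | ∃ x, p = Nat.pair x (c x)})
      have h3 : InM N T := Dec.inM (Dec.comp hc (f := fun x : ℕ × ℕ => Nat.pair x.1 x.2)
        (by fun_prop))
      have h4 : ∀ x i, T (x, i) = true ↔ (c x : ℕ) = i := by
        intro x i
        simp only [T, Set.mem_ofPred_eq, Nat.pair_eq_pair, decide_eq_true_eq]
        exact ⟨fun ⟨a, e1, e2⟩ => e1 ▸ e2.symm, fun e => ⟨x, rfl, e.symm⟩⟩
      obtain ⟨G, e1, e2, ⟨i, e3⟩, j, e4⟩ := h1 T h3 ⟨k, fun x => ⟨c x, (c x).2, (h4 _ _).2 rfl⟩⟩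
      refine ⟨{n | G n = true}, Dec.eq e1 (InM.const _),
        Set.infinite_of_forall_exists_gt fun n => ?_,
        ⟨i, fun x hx y hy h => (h4 _ _).1 (e3 x y h hx hy)⟩,
        j, fun x hx y hy z hz h h' => (h4 _ _).1 (e4 x y z h h' hx hy hz)⟩
      obtain ⟨y, a1, a2⟩ := e2 (n + 1)
      exact ⟨y, a2, a1⟩
    have fin : ∀ (c : ℕ → Fin k) (i : ℕ), ∃ i' : Fin k, ∀ x, (c x : ℕ) = i → c x = i' := by
      intro c i
      by_cases h : i < k
      · exact ⟨⟨i, h⟩, fun x e => Fin.ext e⟩
      · exact ⟨c 0, fun x e => absurd (e ▸ (c x).2) h⟩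
    · intro c hc
      obtain ⟨X, e1, e2, -, i, e3⟩ := key c hc
      obtain ⟨i', hi⟩ := fin c i
      refine ⟨X, e1, e2, i', fun F hF hF' => hi _ ?_⟩
      obtain ⟨x, y, z, a1, a2, a3, rfl⟩ := Finset.card_eq_three.1 hF'
      have hx : x ∈ X := hF (by simp)
      have hy : y ∈ X := hF (by simp)
      have hz : z ∈ X := hF (by simp)
      have e4 : ∀ u ∈ X, ∀ v ∈ X, ∀ w ∈ X, u < v → v < w → u + v + w = x + (y + z) →
          (c (x + (y + z)) : ℕ) = i := fun u hu v hv w hw b1 b2 b3 => b3 ▸ e3 u hu v hv w hw b1 b2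
      rw [Finset.sum_insert (by simp [a1, a2]), Finset.sum_pair a3]
      rcases lt_or_gt_of_ne a1 with a1 | a1 <;> rcases lt_or_gt_of_ne a2 with a2 | a2 <;>
        rcases lt_or_gt_of_ne a3 with a3 | a3
      · exact e4 x hx y hy z hz a1 a3 (by omega)
      · exact e4 x hx z hz y hy a2 a3 (by omega)
      · omega
      · exact e4 z hz x hx y hy a2 a1 (by omega)
      · exact e4 y hy x hx z hz a1 a2 (by omega)
      · omega
      · exact e4 y hy z hz x hx a3 a2 (by omega)
      · exact e4 z hz y hy x hx a3 a1 (by omega)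
  · let c : List ℕ → Fin k := fun l =>
      if f (l.getD 0 0, l.getD 1 0) = true then ⟨1, by omega⟩ else ⟨0, by omega⟩
    have hc : ∀ l, (c l : ℕ) = (f (l.getD 0 0, l.getD 1 0)).toNat := fun l => by
      simp only [c]
      cases f (l.getD 0 0, l.getD 1 0) <;> simp
    obtain ⟨X, e1, e2, i, e3⟩ := h c (Dec.image
      (T := {x : List ℕ × ℕ | x.1.length = n ∧ x.1.Pairwise (· < ·) ∧ x.2 = c x.1}) (by
      simp only [Set.mem_ofPred_eq, hc]
      exact (Dec.eq (by fun_prop) (by fun_prop)).and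
        (((dec_pairwise N).comp (f := fun x : List ℕ × ℕ => x.1) (by fun_prop)).and
          (Dec.eq (by fun_prop) (InM.fin Bool.toNat (by fun_prop))))))
    have key : ∀ b : Bool, b.toNat = (i : ℕ) := by
      intro b
      obtain ⟨x, y, a1, a2, a3, a4⟩ := h2 (fun n => decide (n ∈ X)) (Dec.inM e1)
        (fun n => by
          obtain ⟨y, e1, e2⟩ := e2.exists_gt n
          exact ⟨y, e2.le, by simpa using e1⟩) b
      obtain ⟨l, b1, b2, b3⟩ := exists_list e2 (n - 2) y
      have := e3 (x :: y :: l) (by simp [b1]; omega)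
        (List.Pairwise.cons (fun z hz => by
          rcases List.mem_cons.1 hz with rfl | hz
          · exact a1
          · exact a1.trans (b3 z hz).2) (List.Pairwise.cons (fun z hz => (b3 z hz).2) b2))
        (fun z hz => by
          rcases List.mem_cons.1 hz with rfl | hz
          · simpa using a2
          · rcases List.mem_cons.1 hz with rfl | hz
            · simpa using a3
            · exact (b3 z hz).1)
      rw [← this, hc, ← a4]
      rfl
    have := (key true).trans (key false).symm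
    simp at this

end Pool.Agent.Results.MP_6f9266_lc.AThree
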