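import Pool.Agent.H132Z.HT.Model

/-!
For `n = 2` and every number of colours `k ≥ 2`, `HT^{=2}_k` does not imply `RT²_k` over `RCA₀`:
one model satisfies `HT^{=2}_k` for all `k` and fails even the stable Ramsey theorem for pairs.
-/

set_option autoImplicit false

namespace Pool.Agent.Results.MP_6f9266_lc.PairsAllColours

open Pool.Agent.Helper617.RM Pool.Agent.H132Z.HT

/-- Some model of `RCA₀` satisfies `HT^{=2}_k` for every `k`, while `SRT²_k` and `RT²_k` fail in
it for every `k ≥ 2`. -/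
theorem result : ∃ N : L2Structure.{0}, IsModelRCA0 N ∧ (∀ k, HTeq2 N k) ∧
    ∀ k, 2 ≤ k → ¬ SRT2 N k ∧ ¬ RT2 N k := by
  obtain ⟨N, h1, h2, h3⟩ := exists_model
  exact ⟨N, h1, h2, fun k hk => ⟨h3 k hk, fun h => h3 k hk fun c hc _ => h c hc⟩⟩

end Pool.Agent.Results.MP_6f9266_lc.PairsAllColours
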